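import Pool.Agent.Lib.MP_defcf3_al.BR.Defs

/-!
Statements of the modules of project BR7 (MP_defcf3_al). Mathematics: ../P7/Paper.md.
Every module proves one of the statements below; other statements may be assumed as hypotheses where the
board says so.
-/

namespace BR7

universe u

/-! ## Part H: the heart (only fields, no cohomology) -/

section Heart

variable (F : Type u) {Ω : Type u} [Field F] [Field Ω] [Algebra F Ω]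

/-- The unit a lies in L = F(ζ). -/
def InL (ζ a : Ωˣ) : Prop := ∀ g : Ω ≃ₐ[F] Ω, g • ζ = ζ → g • a = a

/-- The unit a lies in F. -/
def InF (a : Ωˣ) : Prop := ∀ g : Ω ≃ₐ[F] Ω, g • a = a

/-- C is a norm from L(φ,θ) to L(φ), where φ^7 = f, θ^7 = b (nothing is asked when θ lies in L(φ)). -/
def NormData (ζ C b f : Ωˣ) : Prop :=
  ∀ φ θ : Ωˣ, φ ^ 7 = f → θ ^ 7 = b → ∀ σ : Ω ≃ₐ[F] Ω, σ • ζ = ζ → σ • φ = φ → σ • θ = ζ * θ →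
    ∃ z : Ωˣ, (∀ τ : Ω ≃ₐ[F] Ω, τ • ζ = ζ → τ • φ = φ → τ • θ = θ → τ • z = z) ∧
      C = ∏ i ∈ Finset.range 7, (σ ^ i) • z

/-- A symbol with values in an additive group, with all the properties used in the heart. The number d is the
degree of F(ζ)/F, its Galois group is generated by the restriction of γ, and γ ζ = ζ^k. -/
structure SymAx (ζ : Ωˣ) (γ : Ω ≃ₐ[F] Ω) (k d : ℕ) {Q : Type u} [AddCommGroup Q]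
    (sym : Ωˣ → Ωˣ → Q) (Γ : AddMonoid.End Q) : Prop where
  prim : IsPrimitiveRoot ζ 7
  act : γ • ζ = ζ ^ k
  gen : ∀ g : Ω ≃ₐ[F] Ω, ∃ i : ℕ, g • ζ = (γ ^ i) • ζ
  add_left : ∀ a a' b, InL F ζ a → InL F ζ a' → InL F ζ b → sym (a * a') b = sym a b + sym a' b
  add_right : ∀ a b b', InL F ζ a → InL F ζ b → InL F ζ b' → sym a (b * b') = sym a b + sym a b'
  tors : ∀ a b, InL F ζ a → InL F ζ b → (7 : ℕ) • sym a b = 0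
  self : ∀ b, InL F ζ b → sym b b = 0
  stein : ∀ a b : Ωˣ, InL F ζ a → InL F ζ b → (a : Ω) + (b : Ω) = 1 → sym a b = 0
  norm : ∀ n b, InL F ζ n → InL F ζ b → NormData F ζ n b 1 → sym n b = 0
  kum : ∀ C b f, InL F ζ C → InL F ζ b → InL F ζ f → NormData F ζ C b f →
    ∃ β, InL F ζ β ∧ sym C b = sym f β
  gal : ∀ a b, InL F ζ a → InL F ζ b → k • Γ (sym a b) = sym (γ • a) (γ • b)
  triv : ∀ f l, InF F f → InL F ζ l → ∑ i ∈ Finset.range d, (Γ ^ i) (sym f l) = 0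

/-- Conclusion of the heart: the norm from L to F of every symbol vanishes. -/
def NormZero (ζ : Ωˣ) (d : ℕ) {Q : Type u} [AddCommGroup Q]
    (sym : Ωˣ → Ωˣ → Q) (Γ : AddMonoid.End Q) : Prop :=
  ∀ a b, InL F ζ a → InL F ζ b → ∑ i ∈ Finset.range d, (Γ ^ i) (sym a b) = 0

end Heart

/-- The element X of the line (t = ζ + ζ⁻¹). -/
def lineX {Ω : Type u} [Field Ω] (t r q : Ω) : Ω := r * (3 + 2 * t) + q * (1 + t + t ^ 2)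

/-- The element Y of the line. -/
def lineY {Ω : Type u} [Field Ω] (t r q : Ω) : Ω := r * (2 - t) + q * (2 * t ^ 2 - 1)

/-- H1. The line lies on the cubic threefold. Here t i = ζ^(2^i) + ζ^(-2^i), t0 is a root of t^3+t^2-2t-1,
t1 = t0^2-2, t2 = t1^2-2, and t0 = t2^2-2. -/
def LineStatement : Prop :=
  ∀ (Ω : Type u) [Field Ω] (t0 t1 t2 r q : Ω), t0 ^ 3 + t0 ^ 2 - 2 * t0 - 1 = 0 →
    t1 = t0 ^ 2 - 2 → t2 = t1 ^ 2 - 2 →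
    (1 + t0) * lineY t0 r q + (1 + t1) * lineY t1 r q + (1 + t2) * lineY t2 r q = 0 ∧
    lineX t0 r q * lineX t1 r q * lineX t2 r q + lineY t0 r q * lineY t1 r q * lineY t2 r q =
      (1 + t0) * (lineX t1 r q * lineX t2 r q * lineY t1 r q + lineX t0 r q * lineY t0 r q ^ 2) +
      (1 + t1) * (lineX t2 r q * lineX t0 r q * lineY t2 r q + lineX t1 r q * lineY t1 r q ^ 2) +
      (1 + t2) * (lineX t0 r q * lineX t1 r q * lineY t0 r q + lineX t2 r q * lineY t2 r q ^ 2)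

/-- The seven conjugates. -/
def mm {Ω : Type u} [Field Ω] (ζ t0 t1 t2 p0 p1 p2 : Ω) (j : ZMod 7) : Ω :=
  ζ ^ j.val * t0 + ζ ^ (2 * j).val * t1 + ζ ^ (4 * j).val * t2 +
    ζ ^ (6 * j).val * p0 + ζ ^ (5 * j).val * p1 + ζ ^ (3 * j).val * p2

/-- Matching sums of a 7-cycle. -/
def E1 {Ω : Type u} [Field Ω] (m : ZMod 7 → Ω) : Ω := ∑ j, m j
/-- Matching sums of a 7-cycle: pairs. -/
def E2 {Ω : Type u} [Field Ω] (m : ZMod 7 → Ω) : Ω := ∑ j, (m j * m (j + 2) + m j * m (j + 3))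
/-- Matching sums of a 7-cycle: triples. -/
def E3 {Ω : Type u} [Field Ω] (m : ZMod 7 → Ω) : Ω := ∑ j, m j * m (j + 2) * m (j + 4)

/-- H2. Lemma 2 of the paper: the matching sums vanish. -/
def MatchStatement : Prop :=
  ∀ (Ω : Type u) [Field Ω] (ζ t0 t1 t2 p0 p1 p2 : Ω),
    1 + ζ + ζ ^ 2 + ζ ^ 3 + ζ ^ 4 + ζ ^ 5 + ζ ^ 6 = 0 →
    (1 + ζ + ζ ^ 6) * (t0 * p0) + (1 + ζ ^ 2 + ζ ^ 5) * (t1 * p1) + (1 + ζ ^ 4 + ζ ^ 3) * (t2 * p2) = 0 →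
    t0 * t1 * t2 + p0 * p1 * p2 =
      (1 + ζ + ζ ^ 6) * (t0 ^ 2 * p1 + p0 ^ 2 * t1) +
      (1 + ζ ^ 2 + ζ ^ 5) * (t1 ^ 2 * p2 + p1 ^ 2 * t2) +
      (1 + ζ ^ 4 + ζ ^ 3) * (t2 ^ 2 * p0 + p2 ^ 2 * t0) →
    E1 (mm ζ t0 t1 t2 p0 p1 p2) = 0 ∧ E2 (mm ζ t0 t1 t2 p0 p1 p2) = 0 ∧
      E3 (mm ζ t0 t1 t2 p0 p1 p2) = 0

/-- H3. Trace of the monodromy: product of seven matrices. -/
def TraceStatement : Prop :=
  ∀ (Ω : Type u) [Field Ω] (φ : Ω) (μ : ZMod 7 → Ω), E1 μ = 0 → E2 μ = 0 → E3 μ = 0 →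
    (!![φ, -μ 6; 1, 0] * !![φ, -μ 5; 1, 0] * !![φ, -μ 4; 1, 0] * !![φ, -μ 3; 1, 0] *
      !![φ, -μ 2; 1, 0] * !![φ, -μ 1; 1, 0] * !![φ, -μ 0; 1, 0] : Matrix (Fin 2) (Fin 2) Ω).trace = φ ^ 7

/-- H4. Riccati lemma (Lemma 4 of the paper). The element z lies in the subfield generated by the data. -/
def RiccatiStatement : Prop :=
  ∀ (Ω : Type u) [Field Ω] (σ : Ω ≃+* Ω) (μ : ZMod 7 → Ω) (φ C : Ω),
    (∀ j, σ (μ j) = μ (j + 1)) → σ φ = φ → σ C = C → C ≠ 0 → (∀ j, μ j ≠ 0) →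
    E1 μ = 0 → E2 μ = 0 → E3 μ = 0 → φ ^ 7 * C = C ^ 2 + ∏ j, μ j →
    ∃ z : Ω, z ∈ Subfield.closure ({φ, C} ∪ Set.range μ) ∧ z ≠ 0 ∧
      C = ∏ i ∈ Finset.range 7, (σ ^ i) z

/-- H5. Lemma 5: symbols are generated by symbols with first entry in a subfield E with [L:E] at most 3. -/
def GenStatement : Prop :=
  ∀ (F Ω : Type u) [Field F] [Field Ω] [Algebra F Ω] (ζ : Ωˣ) (γ : Ω ≃ₐ[F] Ω) (k d : ℕ)
    (Q : Type u) [AddCommGroup Q] (sym : Ωˣ → Ωˣ → Q) (Γ : AddMonoid.End Q),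
    SymAx F ζ γ k d sym Γ → ∀ (E : Subfield Ω),
    (∀ e ∈ E, ∀ g : Ω ≃ₐ[F] Ω, g • ζ = ζ → g e = e) →
    (∀ a b : Ωˣ, InL F ζ a → InL F ζ b → (a : Ω) ∈ E ∨
      ∃ e1 e2 e3 e4 : Ω, e1 ∈ E ∧ e2 ∈ E ∧ e3 ∈ E ∧ e4 ∈ E ∧ ¬ (e3 = 0 ∧ e4 = 0) ∧
        (e3 + e4 * a) * b = e1 + e2 * a) →
    ∀ (Φ : Q →+ Q), (∀ e l : Ωˣ, (e : Ω) ∈ E → InL F ζ l → Φ (sym e l) = 0) →
    ∀ a b : Ωˣ, InL F ζ a → InL F ζ b → Φ (sym a b) = 0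

/-- H6. Linear algebra: if δ has order at most 3 on L and E is the fixed field of δ in L, then the relation of
GenStatement holds. -/
def RelStatement : Prop :=
  ∀ (F Ω : Type u) [Field F] [Field Ω] [Algebra F Ω] [IsGalois F Ω] (ζ : Ωˣ) (δ : Ω ≃ₐ[F] Ω) (E : Subfield Ω),
    ζ ^ 7 = 1 → (∃ j : ℕ, δ • ζ = ζ ^ j) → (δ ^ 3 • ζ = ζ ∨ δ ^ 2 • ζ = ζ) →
    (∀ e : Ω, e ∈ E ↔ (∀ g : Ω ≃ₐ[F] Ω, g • ζ = ζ → g e = e) ∧ δ e = e) →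
    ∀ a b : Ωˣ, InL F ζ a → InL F ζ b → (a : Ω) ∈ E ∨
      ∃ e1 e2 e3 e4 : Ω, e1 ∈ E ∧ e2 ∈ E ∧ e3 ∈ E ∧ e4 ∈ E ∧ ¬ (e3 = 0 ∧ e4 = 0) ∧
        (e3 + e4 * a) * b = e1 + e2 * a

/-- H7. Linear algebra in F(t), [F(ζ):F] = 6: every element fixed by complex conjugation is a quotient of two
elements of the line. -/
def FixStatement : Prop :=
  ∀ (F Ω : Type u) [Field F] [Field Ω] [Algebra F Ω] [IsGalois F Ω] (ζ : Ωˣ) (γ : Ω ≃ₐ[F] Ω),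
    IsPrimitiveRoot ζ 7 → γ • ζ = ζ ^ 3 → ∀ κ : Ωˣ, InL F ζ κ → γ ^ 3 • κ = κ →
    ∃ r1 q1 r2 q2 : F, ∃ w1 w2 : Ωˣ,
      (w1 : Ω) = lineX ((ζ : Ω) + (ζ : Ω)⁻¹) (algebraMap F Ω r1) (algebraMap F Ω q1) ∧
      (w2 : Ω) = lineX ((ζ : Ω) + (ζ : Ω)⁻¹) (algebraMap F Ω r2) (algebraMap F Ω q2) ∧ κ * w2 = w1

/-- H8. The norm of m lies in F and is not zero (Lemma 3). The element X = lineX t r q is a unit of F(t). -/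
def NormMStatement : Prop :=
  ∀ (F Ω : Type u) [Field F] [Field Ω] [Algebra F Ω] [IsGalois F Ω] (ζ : Ωˣ) (γ : Ω ≃ₐ[F] Ω),
    IsPrimitiveRoot ζ 7 → γ • ζ = ζ ^ 3 → ∀ (r q : F) (θ : Ωˣ) (X0 X1 X2 : Ω),
    X0 = lineX ((ζ : Ω) + (ζ : Ω) ^ 6) (algebraMap F Ω r) (algebraMap F Ω q) →
    X1 = lineX ((ζ : Ω) ^ 2 + (ζ : Ω) ^ 5) (algebraMap F Ω r) (algebraMap F Ω q) →
    X2 = lineX ((ζ : Ω) ^ 4 + (ζ : Ω) ^ 3) (algebraMap F Ω r) (algebraMap F Ω q) →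
    X0 ≠ 0 → (θ : Ω) ^ 7 * (X0 ^ 4 * X1 ^ 2 * X2) = 1 →
    ∀ (t1 t2 p0 p1 p2 : Ω), t1 = X0 * (θ : Ω) ^ 2 → t2 = X1 * t1 ^ 2 →
    p0 * θ * (X0 * X1 * X2) = lineY ((ζ : Ω) + (ζ : Ω) ^ 6) (algebraMap F Ω r) (algebraMap F Ω q) →
    p1 * t1 * (X0 * X1 * X2) = lineY ((ζ : Ω) ^ 2 + (ζ : Ω) ^ 5) (algebraMap F Ω r) (algebraMap F Ω q) →
    p2 * t2 * (X0 * X1 * X2) = lineY ((ζ : Ω) ^ 4 + (ζ : Ω) ^ 3) (algebraMap F Ω r) (algebraMap F Ω q) →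
    (∀ g : Ω ≃ₐ[F] Ω, g (∏ j, mm (ζ : Ω) θ t1 t2 p0 p1 p2 j) = ∏ j, mm (ζ : Ω) θ t1 t2 p0 p1 p2 j) ∧
    ((∃ g : Ω ≃ₐ[F] Ω, g • ζ = ζ ∧ g • θ ≠ θ) → ∀ j, mm (ζ : Ω) θ t1 t2 p0 p1 p2 j ≠ 0)

/-- H9. Key proposition. -/
def KeyStatement : Prop :=
  ∀ (F Ω : Type u) [Field F] [Field Ω] [Algebra F Ω] [IsGalois F Ω] [IsSepClosed Ω] (ζ : Ωˣ) (γ : Ω ≃ₐ[F] Ω)
    (Q : Type u) [AddCommGroup Q] (sym : Ωˣ → Ωˣ → Q) (Γ : AddMonoid.End Q),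
    SymAx F ζ γ 3 6 sym Γ → ∀ (r q : F) (w c : Ωˣ),
    (w : Ω) = lineX ((ζ : Ω) + (ζ : Ω)⁻¹) (algebraMap F Ω r) (algebraMap F Ω q) →
    InL F ζ c → γ ^ 2 • c = c → c * (γ ^ 3 • c) = 1 →
    sym c (w * (γ ^ 2 • w) ^ 4 * (γ ^ 4 • w) ^ 2) = 0

/-- H10-H13. The heart for d = 1, 2, 3, 6. -/
def HeartStatement (k d : ℕ) : Prop :=
  ∀ (F Ω : Type u) [Field F] [Field Ω] [Algebra F Ω] [IsGalois F Ω] [IsSepClosed Ω] (ζ : Ωˣ) (γ : Ω ≃ₐ[F] Ω)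
    (Q : Type u) [AddCommGroup Q] (sym : Ωˣ → Ωˣ → Q) (Γ : AddMonoid.End Q),
    SymAx F ζ γ k d sym Γ → NormZero F ζ d sym Γ

end BR7
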