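import Pool.Agent.Lib.MP_defcf3_al.BR.Base

/-!
Statements of the cohomological modules of project BR7 (MP_defcf3_al). Mathematics: ../P7/Paper.md.
-/

namespace BR7

universe u

/-! ## Part C: generic cohomology -/

section Generic

/-- A continuous action on a (finite) set: stabilizers are open. -/
def OpenStab (G X : Type*) [Group G] [TopologicalSpace G] [MulAction G X] : Prop :=
  ∀ x : X, IsOpen {g : G | g • x = x}

/-- C1. Coboundaries are cocycles. -/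
def BZStatement : Prop :=
  ∀ (G A : Type u) [Group G] [TopologicalSpace G] [IsTopologicalGroup G] [CommGroup A]
    [MulDistribMulAction G A], Disc G A → B2 G A ≤ Z2 G A

/-- C2. The corestricted cup product is a continuous cocycle. -/
def GcupZStatement : Prop :=
  ∀ (G A X : Type u) [Group G] [TopologicalSpace G] [IsTopologicalGroup G] [CommGroup A]
    [MulDistribMulAction G A] [MulAction G X] [Fintype X], Disc G A → OpenStab G X →
    ∀ (n : ℕ) [NeZero n] (u : X → A) (χ : G → X → ZMod n), EqvF (G := G) u → GChar n χ →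
    (∀ x, IsLocallyConstant (fun g => χ g x)) → gcup n u χ ∈ Z2 G A

/-- C3. Integer exponents: products of powers of u whose exponents form a coboundary. -/
def ExpoStatement : Prop :=
  ∀ (G A X : Type u) [Group G] [TopologicalSpace G] [IsTopologicalGroup G] [CommGroup A]
    [MulDistribMulAction G A] [MulAction G X] [Fintype X], Disc G A → OpenStab G X →
    ∀ (u : X → A), EqvF (G := G) u → ∀ (q : G → X → ℤ), (∀ x, IsLocallyConstant (fun g => q g x)) →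
    (fun g h => ∏ x, (u ((g * h) • x)) ^ (q g (h • x) + q h x - q (g * h) x)) ∈ B2 G A

/-- C4. Additivity in the character. -/
def GcupAddStatement : Prop :=
  ∀ (G A X : Type u) [Group G] [TopologicalSpace G] [IsTopologicalGroup G] [CommGroup A]
    [MulDistribMulAction G A] [MulAction G X] [Fintype X], Disc G A → OpenStab G X →
    ∀ (n : ℕ) [NeZero n] (u : X → A) (χ ψ : G → X → ZMod n), EqvF (G := G) u → GChar n χ → GChar n ψ →
    (∀ x, IsLocallyConstant (fun g => χ g x)) → (∀ x, IsLocallyConstant (fun g => ψ g x)) →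
    gcup n u (fun g x => χ g x + ψ g x) * (gcup n u χ * gcup n u ψ)⁻¹ ∈ B2 G A

/-- C5. Torsion. -/
def GcupTorsStatement : Prop :=
  ∀ (G A X : Type u) [Group G] [TopologicalSpace G] [IsTopologicalGroup G] [CommGroup A]
    [MulDistribMulAction G A] [MulAction G X] [Fintype X], Disc G A → OpenStab G X →
    ∀ (n : ℕ) [NeZero n] (u : X → A) (χ : G → X → ZMod n), EqvF (G := G) u → GChar n χ →
    (∀ x, IsLocallyConstant (fun g => χ g x)) → gcup n u χ ^ n ∈ B2 G A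

/-- C6. Coboundary characters of the groupoid give trivial classes. -/
def GcupCobStatement : Prop :=
  ∀ (G A X : Type u) [Group G] [TopologicalSpace G] [IsTopologicalGroup G] [CommGroup A]
    [MulDistribMulAction G A] [MulAction G X] [Fintype X], Disc G A → OpenStab G X →
    ∀ (n : ℕ) [NeZero n] (u : X → A) (ψ : X → ZMod n), EqvF (G := G) u →
    gcup n u (fun g x => ψ (g • x) - ψ x) ∈ B2 G A

/-- C7. Change of modulus: k times the class of a character modulo m = n*k is the class of its reduction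
modulo n. -/
def GcupModStatement : Prop :=
  ∀ (G A X : Type u) [Group G] [TopologicalSpace G] [IsTopologicalGroup G] [CommGroup A]
    [MulDistribMulAction G A] [MulAction G X] [Fintype X], Disc G A → OpenStab G X →
    ∀ (n k m : ℕ) [NeZero n] [NeZero k] [NeZero m] (hd : n ∣ m), m = n * k →
    ∀ (u : X → A) (χ : G → X → ZMod m),
    EqvF (G := G) u → GChar m χ → (∀ x, IsLocallyConstant (fun g => χ g x)) →
    gcup m u χ ^ k * (gcup n u (fun g x => ZMod.castHom hd (ZMod n) (χ g x)))⁻¹ ∈ B2 G A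

/-- C8. Projection formula (an equality of cochains). -/
def GcupPushStatement : Prop :=
  ∀ (G A X Y : Type u) [Group G] [CommGroup A] [MulDistribMulAction G A] [MulAction G X] [Fintype X]
    [MulAction G Y] [Fintype Y] [DecidableEq Y] (n : ℕ) (π : X → Y), (∀ (g : G) (x : X), π (g • x) = g • π x) →
    ∀ (u : X → A) (χ : G → Y → ZMod n),
    gcup n u (fun g x => χ g (π x)) =
      gcup n (fun y => ∏ x ∈ Finset.univ.filter (fun x => π x = y), u x) χ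

/-- C9. Transfer of characters: for constant (invariant) u. -/
def GcupTransStatement : Prop :=
  ∀ (G A X : Type u) [Group G] [TopologicalSpace G] [IsTopologicalGroup G] [CommGroup A]
    [MulDistribMulAction G A] [MulAction G X] [Fintype X], Disc G A → OpenStab G X →
    ∀ (n : ℕ) [NeZero n] (a : A) (χ : G → X → ZMod n), (∀ g : G, g • a = a) → GChar n χ →
    (∀ x, IsLocallyConstant (fun g => χ g x)) →
    gcup n (fun _ : X => a) χ * (cup n a (fun g => ∑ x, χ g x))⁻¹ ∈ B2 G A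

/-- C10. Two characters of the groupoid of a transitive set which agree on one stabilizer differ by a
coboundary. -/
def GCharStatement : Prop :=
  ∀ (G X : Type u) [Group G] [MulAction G X] (n : ℕ) (χ ψ : G → X → ZMod n) (x0 : X),
    GChar n χ → GChar n ψ → (∀ x : X, ∃ g : G, g • x0 = x) → (∀ g : G, g • x0 = x0 → χ g x0 = ψ g x0) →
    ∃ ρ : X → ZMod n, ∀ g x, χ g x = ψ g x + (ρ (g • x) - ρ x)

/-- C11. Norm criterion (direct part): a is the product of an equivariant function on a finite G-set on which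
the character becomes a coboundary. -/
def NormDirStatement : Prop :=
  ∀ (G A : Type u) [Group G] [TopologicalSpace G] [IsTopologicalGroup G] [CommGroup A]
    [MulDistribMulAction G A], Disc G A → ∀ (n : ℕ) [NeZero n] (χ : G → ZMod n),
    (∀ g h, χ (g * h) = χ g + χ h) → IsLocallyConstant χ → ∀ (Y : Type u) [MulAction G Y] [Fintype Y],
    OpenStab G Y → ∀ (v : Y → A) (ψ : Y → ZMod n), EqvF (G := G) v → (∀ g y, χ g = ψ (g • y) - ψ y) →
    cup n (∏ y, v y) χ ∈ B2 G A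

/-- C12. Norm criterion (converse part). U is the kernel of χ. -/
def NormConvStatement : Prop :=
  ∀ (G A : Type u) [Group G] [TopologicalSpace G] [IsTopologicalGroup G] [CommGroup A]
    [MulDistribMulAction G A], Disc G A → ∀ (n : ℕ) [NeZero n] (χ : G → ZMod n),
    (∀ g h, χ (g * h) = χ g + χ h) → IsLocallyConstant χ → ∀ (U : Subgroup G), (∀ g, g ∈ U ↔ χ g = 0) →
    H1Triv U A → ∀ a : A, (∀ g : G, g • a = a) → cup n a χ ∈ B2 G A →
    ∃ w : A, (∀ g ∈ U, g • w = w) ∧ ∀ (N : Subgroup G) [Fintype (G ⧸ N)], N ≤ U →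
      ∏ y : G ⧸ N, (Quotient.out y) • w = a ^ (N.relIndex U)

/-- C13. Kernel of the restriction to the kernel of a character of prime order. -/
def KerResStatement : Prop :=
  ∀ (G A : Type u) [Group G] [TopologicalSpace G] [IsTopologicalGroup G] [CommGroup A]
    [MulDistribMulAction G A], Disc G A → ∀ (n : ℕ) [Fact n.Prime] (χ : G → ZMod n),
    (∀ g h, χ (g * h) = χ g + χ h) → IsLocallyConstant χ → ∀ (U : Subgroup G), (∀ g, g ∈ U ↔ χ g = 0) →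
    H1Triv U A → ∀ f ∈ Z2 G A, (fun g h : U => f g h) ∈ B2 U A →
    ∃ a : A, (∀ g : G, g • a = a) ∧ f * (cup n a χ)⁻¹ ∈ B2 G A

/-- C14. For x in Z2 G A and γ in G, H normal: the conjugate of the restriction to H is cohomologous to it. -/
def ConjResStatement : Prop :=
  ∀ (G A : Type u) [Group G] [TopologicalSpace G] [IsTopologicalGroup G] [CommGroup A]
    [MulDistribMulAction G A], Disc G A → ∀ (H : Subgroup G) (γ : G) (hH : ∀ h ∈ H, γ⁻¹ * h * γ ∈ H)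
    (f : G → G → A), f ∈ Z2 G A →
    (fun g h : H => (γ • f (γ⁻¹ * g * γ) (γ⁻¹ * h * γ)) * (f g h)⁻¹) ∈ B2 H A

end Generic

/-! ## Part D: fields -/

section FieldPart

/-- D1. The Galois group acts discretely on units. -/
def DiscStatement : Prop :=
  ∀ (F Ω : Type u) [Field F] [Field Ω] [Algebra F Ω] [IsGalois F Ω], Disc (Ω ≃ₐ[F] Ω) Ωˣ

/-- D2. Hilbert 90 for open subgroups of an open subgroup of the Galois group. -/
def H90Statement : Prop :=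
  ∀ (F Ω : Type u) [Field F] [Field Ω] [Algebra F Ω] [IsGalois F Ω] (H : Subgroup (Ω ≃ₐ[F] Ω)),
    IsOpen (H : Set (Ω ≃ₐ[F] Ω)) → ∀ U : Subgroup H, IsOpen (U : Set H) → H1Triv U Ωˣ

/-- The discrete logarithm to the base ζ. -/
noncomputable def dlog (n : ℕ) {Ω : Type u} [Field Ω] (ζ x : Ωˣ) : ZMod n := by
  classical
  exact if h : ∃ i : ZMod n, x = ζ ^ i.val then h.choose else 0

/-- D3. Properties of the discrete logarithm. -/
def DlogStatement : Prop :=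
  ∀ (Ω : Type u) [Field Ω] (n : ℕ) [NeZero n] (ζ : Ωˣ), IsPrimitiveRoot ζ n →
    (∀ x : Ωˣ, x ^ n = 1 → ζ ^ (dlog n ζ x).val = x) ∧
    (∀ x y : Ωˣ, x ^ n = 1 → y ^ n = 1 → dlog n ζ (x * y) = dlog n ζ x + dlog n ζ y) ∧
    (∀ i : ZMod n, dlog n ζ (ζ ^ i.val) = i)

/-- A chosen 7th root. -/
noncomputable def root7 {Ω : Type u} [Field Ω] (b : Ωˣ) : Ωˣ := by
  classical
  exact if h : ∃ θ : Ωˣ, θ ^ 7 = b then h.choose else 1

variable (F : Type u) {Ω : Type u} [Field F] [Field Ω] [Algebra F Ω]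

/-- The stabilizer of ζ: the Galois group of Ω over L = F(ζ). -/
abbrev HZ (ζ : Ωˣ) : Subgroup (Ω ≃ₐ[F] Ω) := MulAction.stabilizer (Ω ≃ₐ[F] Ω) ζ

/-- Kummer character of b. -/
noncomputable def kum (ζ b : Ωˣ) : HZ F ζ → ZMod 7 := fun h => dlog 7 ζ ((h • root7 b) * (root7 b)⁻¹)

/-- The symbol {a,b} in Br(L) = H^2(Gal(Ω/L), Ωˣ). -/
noncomputable def symb (ζ a b : Ωˣ) : H2 (HZ F ζ) Ωˣ := cls (HZ F ζ) Ωˣ (cup 7 a (kum F ζ b))

/-- Conjugation by γ on cochains of a subgroup normalised by γ. -/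
def conjC {G A : Type*} [Group G] [CommGroup A] [MulDistribMulAction G A] (H : Subgroup G) (γ : G)
    (hH : ∀ h ∈ H, γ⁻¹ * h * γ ∈ H) : (H → H → A) →* (H → H → A) where
  toFun f := fun g h => γ • f ⟨γ⁻¹ * g * γ, hH g g.2⟩ ⟨γ⁻¹ * h * γ, hH h h.2⟩
  map_one' := by
    funext g h
    simp
  map_mul' f f' := by
    funext g h
    simp

/-- D4. Conjugation preserves continuous cocycles and coboundaries. -/
def ConjCStatement : Prop :=
  ∀ (G A : Type u) [Group G] [TopologicalSpace G] [IsTopologicalGroup G] [CommGroup A]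
    [MulDistribMulAction G A], Disc G A → ∀ (H : Subgroup G) (γ : G) (hH : ∀ h ∈ H, γ⁻¹ * h * γ ∈ H),
    (∀ f ∈ Z2 H A, conjC H γ hH f ∈ Z2 H A) ∧ (∀ f ∈ B2 H A, conjC H γ hH f ∈ B2 H A)

/-- D5. Properties of Kummer characters. -/
def KumStatement : Prop :=
  ∀ (F Ω : Type u) [Field F] [Field Ω] [Algebra F Ω] [IsGalois F Ω] [IsSepClosed Ω] (ζ : Ωˣ),
    IsPrimitiveRoot ζ 7 →
    (∀ b : Ωˣ, (root7 b) ^ 7 = b) ∧
    (∀ b θ : Ωˣ, InL F ζ b → θ ^ 7 = b → ∀ h : HZ F ζ, h • θ = ζ ^ (kum F ζ b h).val * θ) ∧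
    (∀ b : Ωˣ, InL F ζ b → ∀ g h, kum F ζ b (g * h) = kum F ζ b g + kum F ζ b h) ∧
    (∀ b : Ωˣ, InL F ζ b → IsLocallyConstant (kum F ζ b)) ∧
    (∀ b b' : Ωˣ, InL F ζ b → InL F ζ b' → ∀ h, kum F ζ (b * b') h = kum F ζ b h + kum F ζ b' h) ∧
    (∀ (γ : Ω ≃ₐ[F] Ω) (k : ℕ), γ • ζ = ζ ^ k → ∀ b : Ωˣ, InL F ζ b → InL F ζ (γ • b) ∧
      ∀ (h h' : HZ F ζ), (h' : Ω ≃ₐ[F] Ω) = γ⁻¹ * h * γ → (k : ZMod 7) * kum F ζ b h' = kum F ζ (γ • b) h)

/-- D6. Cyclotomic characters: for every n a continuous character of Gal(Ω/F) modulo 7^n, compatible, whose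
kernel intersected with the stabilizer of ζ fixes all 7^(n+1)-th roots of unity. -/
def CycloStatement : Prop :=
  ∀ (F Ω : Type u) [Field F] [Field Ω] [Algebra F Ω] [IsGalois F Ω] [IsSepClosed Ω] (ζ : Ωˣ),
    IsPrimitiveRoot ζ 7 → ∃ χ : (n : ℕ) → (Ω ≃ₐ[F] Ω) → ZMod (7 ^ n),
      (∀ n g h, χ n (g * h) = χ n g + χ n h) ∧ (∀ n, IsLocallyConstant (χ n)) ∧
      (∀ n k g, ZMod.castHom (pow_dvd_pow 7 (Nat.le_add_right n k)) (ZMod (7 ^ n)) (χ (n + k) g) = χ n g) ∧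
      (∀ n g, g • ζ = ζ → χ n g = 0 → ∀ x : Ωˣ, x ^ (7 ^ (n + 1)) = 1 → g • x = x)

/-- D7. All classes (f, χ) over F vanish if the 7-power torsion of Br(F) has bounded exponent. -/
def CycZeroStatement : Prop :=
  ∀ (F Ω : Type u) [Field F] [Field Ω] [Algebra F Ω] [IsGalois F Ω] [IsSepClosed Ω] (ζ : Ωˣ),
    IsPrimitiveRoot ζ 7 → ∀ κ : ℕ,
    (∀ f ∈ Z2 (Ω ≃ₐ[F] Ω) Ωˣ, (∃ j : ℕ, f ^ (7 ^ j) ∈ B2 (Ω ≃ₐ[F] Ω) Ωˣ) → f ^ (7 ^ κ) ∈ B2 (Ω ≃ₐ[F] Ω) Ωˣ) →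
    ∀ (a : Ωˣ) (χ : (Ω ≃ₐ[F] Ω) → ZMod 7), InF F a → (∀ g h, χ (g * h) = χ g + χ h) → IsLocallyConstant χ →
    cup 7 a χ ∈ B2 (Ω ≃ₐ[F] Ω) Ωˣ

/-- D8. Root systems: N open, contained in the stabilizer of all 7^(n+1)-th roots of unity. Every character of
G modulo 7 becomes, on the stabilizer N of the base point of G/N, the reduction of a character modulo 7^(n+1) of
the groupoid of G/N. -/
def RootStatement : Prop :=
  ∀ (F Ω : Type u) [Field F] [Field Ω] [Algebra F Ω] [IsGalois F Ω] [IsSepClosed Ω] (ζ : Ωˣ),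
    IsPrimitiveRoot ζ 7 → ∀ (n : ℕ) (N : Subgroup (Ω ≃ₐ[F] Ω)), IsOpen (N : Set (Ω ≃ₐ[F] Ω)) →
    (∀ g ∈ N, ∀ x : Ωˣ, x ^ (7 ^ (n + 1)) = 1 → g • x = x) →
    ∀ χ : (Ω ≃ₐ[F] Ω) → ZMod 7, (∀ g h, χ (g * h) = χ g + χ h) → IsLocallyConstant χ →
    ∃ ψ : (Ω ≃ₐ[F] Ω) → ((Ω ≃ₐ[F] Ω) ⧸ N) → ZMod (7 ^ (n + 1)), GChar (7 ^ (n + 1)) ψ ∧
      (∀ x, IsLocallyConstant (fun g => ψ g x)) ∧
      ∀ g ∈ N, ZMod.castHom (dvd_pow_self 7 (Nat.succ_ne_zero n)) (ZMod 7)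
        (ψ g (QuotientGroup.mk 1)) = χ g

/-- D9. The index of N in U, where U is the kernel of a character and N the intersection with the
stabilizer of ζ, is prime to 7; everything is open of finite index. -/
def IndexStatement : Prop :=
  ∀ (F Ω : Type u) [Field F] [Field Ω] [Algebra F Ω] [IsGalois F Ω] (ζ : Ωˣ),
    IsPrimitiveRoot ζ 7 → ∀ U : Subgroup (Ω ≃ₐ[F] Ω), IsOpen (U : Set (Ω ≃ₐ[F] Ω)) →
    IsOpen ((U ⊓ HZ F ζ : Subgroup (Ω ≃ₐ[F] Ω)) : Set (Ω ≃ₐ[F] Ω)) ∧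
    (U ⊓ HZ F ζ).FiniteIndex ∧ Nat.Coprime ((U ⊓ HZ F ζ).relIndex U) 7

/-! ## Part E: symbols -/

/-- E1. Bilinearity and torsion of symbols. -/
def SymAddStatement : Prop :=
  ∀ (F Ω : Type u) [Field F] [Field Ω] [Algebra F Ω] [IsGalois F Ω] [IsSepClosed Ω] (ζ : Ωˣ),
    IsPrimitiveRoot ζ 7 →
    (∀ a b : Ωˣ, InL F ζ a → InL F ζ b → cup 7 a (kum F ζ b) ∈ Z2 (HZ F ζ) Ωˣ) ∧
    (∀ a a' b : Ωˣ, InL F ζ a → InL F ζ a' → InL F ζ b →
      symb F ζ (a * a') b = symb F ζ a b * symb F ζ a' b) ∧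
    (∀ a b b' : Ωˣ, InL F ζ a → InL F ζ b → InL F ζ b' →
      symb F ζ a (b * b') = symb F ζ a b * symb F ζ a b') ∧
    (∀ a b : Ωˣ, InL F ζ a → InL F ζ b → symb F ζ a b ^ 7 = 1)

/-- E2. Self symbols and the Steinberg relation. -/
def SymSteinStatement : Prop :=
  ∀ (F Ω : Type u) [Field F] [Field Ω] [Algebra F Ω] [IsGalois F Ω] [IsSepClosed Ω] (ζ : Ωˣ),
    IsPrimitiveRoot ζ 7 →
    (∀ b : Ωˣ, InL F ζ b → symb F ζ b b = 1) ∧
    (∀ a b : Ωˣ, InL F ζ a → InL F ζ b → (a : Ω) + (b : Ω) = 1 → symb F ζ a b = 1)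

/-- E3. Symbols of norms vanish. -/
def SymNormStatement : Prop :=
  ∀ (F Ω : Type u) [Field F] [Field Ω] [Algebra F Ω] [IsGalois F Ω] [IsSepClosed Ω] (ζ : Ωˣ),
    IsPrimitiveRoot ζ 7 → ∀ n b : Ωˣ, InL F ζ n → InL F ζ b → NormData F ζ n b 1 → symb F ζ n b = 1

/-- E4. Property (K). -/
def SymKumStatement : Prop :=
  ∀ (F Ω : Type u) [Field F] [Field Ω] [Algebra F Ω] [IsGalois F Ω] [IsSepClosed Ω] (ζ : Ωˣ),
    IsPrimitiveRoot ζ 7 → ∀ C b f : Ωˣ, InL F ζ C → InL F ζ b → InL F ζ f → NormData F ζ C b f →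
    ∃ β, InL F ζ β ∧ symb F ζ C b = symb F ζ f β

/-- E5. Action of γ on symbols. -/
def SymGalStatement : Prop :=
  ∀ (F Ω : Type u) [Field F] [Field Ω] [Algebra F Ω] [IsGalois F Ω] [IsSepClosed Ω] (ζ : Ωˣ),
    IsPrimitiveRoot ζ 7 → ∀ (γ : Ω ≃ₐ[F] Ω) (k : ℕ) (hH : ∀ h ∈ HZ F ζ, γ⁻¹ * h * γ ∈ HZ F ζ),
    γ • ζ = ζ ^ k → ∀ a b : Ωˣ, InL F ζ a → InL F ζ b →
    cls (HZ F ζ) Ωˣ (conjC (HZ F ζ) γ hH (cup 7 a (kum F ζ b))) ^ k = symb F ζ (γ • a) (γ • b)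

/-- E6. The norm to F of a symbol with one entry in F vanishes (if all classes (f,χ) over F vanish). The norm is
computed in Br(L) by conjugating with the powers of γ, where (γ^d) ζ = ζ. -/
def TrivStatement : Prop :=
  ∀ (F Ω : Type u) [Field F] [Field Ω] [Algebra F Ω] [IsGalois F Ω] [IsSepClosed Ω] (ζ : Ωˣ),
    IsPrimitiveRoot ζ 7 →
    (∀ (a : Ωˣ) (χ : (Ω ≃ₐ[F] Ω) → ZMod 7), InF F a → (∀ g h, χ (g * h) = χ g + χ h) →
      IsLocallyConstant χ → cup 7 a χ ∈ B2 (Ω ≃ₐ[F] Ω) Ωˣ) →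
    ∀ (γ : Ω ≃ₐ[F] Ω) (d : ℕ) (hH : ∀ i : ℕ, ∀ h ∈ HZ F ζ, (γ ^ i)⁻¹ * h * γ ^ i ∈ HZ F ζ),
    (∀ g : Ω ≃ₐ[F] Ω, ∃! i : Fin d, g • ζ = (γ ^ (i : ℕ)) • ζ) →
    ∀ f l : Ωˣ, InF F f → InL F ζ l →
    ∏ i : Fin d, conjC (HZ F ζ) (γ ^ (i : ℕ)) (hH i) (cup 7 f (kum F ζ l)) ∈ B2 (HZ F ζ) Ωˣ

/-- Cohomological Theorem S: x in Br(F) whose restriction to L is a product of symbols restricts to zero. -/
def MainCohStatement : Prop :=
  ∀ (F Ω : Type u) [Field F] [Field Ω] [Algebra F Ω] [IsGalois F Ω] [IsSepClosed Ω] (ζ : Ωˣ),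
    IsPrimitiveRoot ζ 7 → ∀ κ : ℕ,
    (∀ f ∈ Z2 (Ω ≃ₐ[F] Ω) Ωˣ, (∃ j : ℕ, f ^ (7 ^ j) ∈ B2 (Ω ≃ₐ[F] Ω) Ωˣ) → f ^ (7 ^ κ) ∈ B2 (Ω ≃ₐ[F] Ω) Ωˣ) →
    ∀ x ∈ Z2 (Ω ≃ₐ[F] Ω) Ωˣ,
    cls (HZ F ζ) Ωˣ (fun g h : HZ F ζ => x g h) ∈
      Subgroup.closure {s | ∃ a b : Ωˣ, InL F ζ a ∧ InL F ζ b ∧ s = symb F ζ a b} →
    (fun g h : HZ F ζ => x g h) ∈ B2 (HZ F ζ) Ωˣ

end FieldPart

end BR7
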