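import Mathlib

/-!
Continuous cohomology in degree 2 with coefficients in a discrete module, and symbols given by finite
sets with group action.
-/

namespace BR7

section Coh

variable (G : Type*) [Group G] [TopologicalSpace G] (A : Type*) [CommGroup A] [MulDistribMulAction G A]

/-- The action of the topological group on the module is discrete: stabilizers are open. -/
def Disc : Prop := ∀ a : A, IsOpen {g : G | g • a = a}

/-- Continuous (locally constant) 2-cocycles. -/
def Z2 : Subgroup (G → G → A) where
  carrier := {f | IsLocallyConstant (fun p : G × G => f p.1 p.2) ∧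
    ∀ g h k, f g h * f (g * h) k = (g • f h k) * f g (h * k)}
  mul_mem' := by
    rintro f f' ⟨h1, h2⟩ ⟨h1', h2'⟩
    refine ⟨h1.mul h1', fun g h k => ?_⟩
    simp only [Pi.mul_apply, smul_mul']
    have e := h2 g h k
    have e' := h2' g h k
    calc f g h * f' g h * (f (g * h) k * f' (g * h) k)
        = (f g h * f (g * h) k) * (f' g h * f' (g * h) k) := by
          rw [mul_mul_mul_comm]
      _ = ((g • f h k) * f g (h * k)) * ((g • f' h k) * f' g (h * k)) := by rw [e, e']
      _ = _ := by rw [mul_mul_mul_comm]
  one_mem' := by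
    refine ⟨IsLocallyConstant.const 1, fun g h k => ?_⟩
    simp
  inv_mem' := by
    rintro f ⟨h1, h2⟩
    refine ⟨h1.inv, fun g h k => ?_⟩
    simp only [Pi.inv_apply, smul_inv']
    rw [← mul_inv, ← mul_inv, h2 g h k]

/-- Continuous 2-coboundaries. -/
def B2 : Subgroup (G → G → A) where
  carrier := {f | ∃ b : G → A, IsLocallyConstant b ∧ ∀ g h, f g h = b g * (g • b h) * (b (g * h))⁻¹}
  mul_mem' := by
    rintro f f' ⟨b, hb, e⟩ ⟨b', hb', e'⟩
    refine ⟨b * b', hb.mul hb', fun g h => ?_⟩
    simp only [Pi.mul_apply, smul_mul', mul_inv, e g h, e' g h]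
    rw [mul_mul_mul_comm (b g) (b' g), mul_mul_mul_comm (b g * (g • b h))]
  one_mem' := by
    refine ⟨1, IsLocallyConstant.const 1, fun g h => ?_⟩
    simp
  inv_mem' := by
    rintro f ⟨b, hb, e⟩
    refine ⟨b⁻¹, hb.inv, fun g h => ?_⟩
    simp only [Pi.inv_apply, smul_inv', e g h, mul_inv]

/-- The second continuous cohomology group (written multiplicatively). -/
abbrev H2 := Z2 G A ⧸ (B2 G A).subgroupOf (Z2 G A)

/-- The class of a cochain (the trivial class when it is not a continuous cocycle). -/
noncomputable def cls (f : G → G → A) : H2 G A := by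
  classical
  exact if h : f ∈ Z2 G A then QuotientGroup.mk ⟨f, h⟩ else 1

/-- Continuous 1-cocycles are coboundaries. -/
def H1Triv : Prop := ∀ c : G → A, IsLocallyConstant c → (∀ g h, c (g * h) = c g * (g • c h)) →
  ∃ a : A, ∀ g, c g = (g • a) * a⁻¹

end Coh

/-- The carry of the addition of two residues modulo n. -/
def carry (n : ℕ) (x y : ZMod n) : ℕ := (x.val + y.val) / n

section Cup

variable {G : Type*} [Group G] {A : Type*} [CommGroup A] [MulDistribMulAction G A]

/-- The cup product of an invariant element with (the Bockstein of) a character. -/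
def cup (n : ℕ) (a : A) (χ : G → ZMod n) : G → G → A := fun g h => a ^ carry n (χ g) (χ h)

variable {X : Type*} [MulAction G X]

/-- Equivariant function on a G-set. -/
def EqvF (u : X → A) : Prop := ∀ (g : G) (x : X), u (g • x) = g • u x

/-- Character of the action groupoid. -/
def GChar (n : ℕ) (χ : G → X → ZMod n) : Prop := ∀ (g h : G) (x : X), χ (g * h) x = χ g (h • x) + χ h x

/-- The corestriction (over a finite G-set) of cup products. -/
def gcup [Fintype X] (n : ℕ) (u : X → A) (χ : G → X → ZMod n) : G → G → A :=
  fun g h => ∏ x, (u ((g * h) • x)) ^ carry n (χ g (h • x)) (χ h x)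

end Cup

end BR7
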