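import Pool.Agent.Lib.MP_defcf3_al.BR.BaseC

/-!
Project BR7, stage 2, part I: central simple algebras and their factor sets.
-/

open scoped TensorProduct

namespace BR7

universe u v

/-- A splitting of the F-algebra A over Ω: an embedding ι into matrices over Ω whose Ω-span is everything, and
matrices u g describing the Galois twist, with factor set f. -/
structure RepData (F : Type u) (Ω : Type u) [Field F] [Field Ω] [Algebra F Ω] (A : Type u) [Ring A]
    [Algebra F A] (n : Type v) [Fintype n] [DecidableEq n]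
    (f : (Ω ≃ₐ[F] Ω) → (Ω ≃ₐ[F] Ω) → Ωˣ) where
  /-- the embedding -/
  ι : A →ₐ[F] Matrix n n Ω
  /-- the twist -/
  u : (Ω ≃ₐ[F] Ω) → (Matrix n n Ω)ˣ
  ne : Nonempty n
  dim : Module.finrank F A = Fintype.card n ^ 2
  span : Submodule.span Ω (Set.range ι) = ⊤
  lc : IsLocallyConstant u
  tw : ∀ (g : Ω ≃ₐ[F] Ω) (a : A), (ι a).map g = (↑(u g)⁻¹ : Matrix n n Ω) * ι a * (u g : Matrix n n Ω)
  fac : ∀ g h : Ω ≃ₐ[F] Ω, (u g : Matrix n n Ω) * (u h : Matrix n n Ω).map g =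
    (f g h : Ω) • (u (g * h) : Matrix n n Ω)

/-- I1. Galois descent for finite-dimensional vector spaces with a discrete semilinear action: there is an
invariant basis, and invariant vectors have coordinates in F. -/
def GalDescStatement : Prop :=
  ∀ (F Ω : Type u) [Field F] [Field Ω] [Algebra F Ω] [IsGalois F Ω] (V : Type v) [AddCommGroup V]
    [Module Ω V] [FiniteDimensional Ω V] (ρ : (Ω ≃ₐ[F] Ω) → V → V),
    (∀ g v w, ρ g (v + w) = ρ g v + ρ g w) → (∀ g (c : Ω) v, ρ g (c • v) = g c • ρ g v) →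
    (∀ g h v, ρ (g * h) v = ρ g (ρ h v)) → (∀ v, ρ 1 v = v) → (∀ v, IsOpen {g | ρ g v = v}) →
    ∃ b : Module.Basis (Fin (Module.finrank Ω V)) Ω V, (∀ g i, ρ g (b i) = b i) ∧
      ∀ v, (∀ g, ρ g v = v) → ∀ i, ∃ c : F, b.repr v i = algebraMap F Ω c

/-- I2. Central simple algebras over a separably closed field are matrix algebras (Wedderburn and
Jacobson-Noether, both in Mathlib). -/
def SepSplitStatement : Prop :=
  ∀ (Ω : Type u) [Field Ω] [IsSepClosed Ω] (B : Type u) [Ring B] [Algebra Ω B] [Algebra.IsCentral Ω B]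
    [IsSimpleRing B] [FiniteDimensional Ω B],
    ∃ n : ℕ, n ≠ 0 ∧ Nonempty (B ≃ₐ[Ω] Matrix (Fin n) (Fin n) Ω)

/-- I3. The base change of a central simple algebra is central simple. -/
def BaseSimpleStatement : Prop :=
  ∀ (F Ω : Type u) [Field F] [Field Ω] [Algebra F Ω] (A : Type u) [Ring A] [Algebra F A]
    [Algebra.IsCentral F A] [IsSimpleRing A] [FiniteDimensional F A],
    Algebra.IsCentral Ω (Ω ⊗[F] A) ∧ IsSimpleRing (Ω ⊗[F] A) ∧ FiniteDimensional Ω (Ω ⊗[F] A)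

/-- I4. Skolem-Noether for spanning embeddings in a matrix algebra. -/
def SkoNoStatement : Prop :=
  ∀ (F Ω : Type u) [Field F] [Field Ω] [Algebra F Ω] (A : Type u) [Ring A] [Algebra F A]
    (n : Type v) [Fintype n] [DecidableEq n], Module.finrank F A = Fintype.card n ^ 2 → Nonempty n →
    ∀ ι ι' : A →+* Matrix n n Ω, (∀ c : F, ι (algebraMap F A c) = Matrix.scalar n (algebraMap F Ω c)) →
    (∀ c : F, ι' (algebraMap F A c) = Matrix.scalar n (algebraMap F Ω c)) →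
    Submodule.span Ω (Set.range ι) = ⊤ → Submodule.span Ω (Set.range ι') = ⊤ →
    ∃ w : (Matrix n n Ω)ˣ, ∀ a, ι' a = (↑w⁻¹ : Matrix n n Ω) * ι a * (w : Matrix n n Ω)

/-- I5. Every central simple algebra has splitting data, with a continuous factor set. -/
def RepExStatement : Prop :=
  ∀ (F Ω : Type u) [Field F] [Field Ω] [Algebra F Ω] [IsGalois F Ω] [IsSepClosed Ω] (A : Type u) [Ring A]
    [Algebra F A] [Algebra.IsCentral F A] [IsSimpleRing A] [FiniteDimensional F A],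
    ∃ (n : ℕ) (f : (Ω ≃ₐ[F] Ω) → (Ω ≃ₐ[F] Ω) → Ωˣ), Nonempty (RepData F Ω A (Fin n) f)

/-- I6. The factor set is a continuous cocycle. -/
def RepZStatement : Prop :=
  ∀ (F Ω : Type u) [Field F] [Field Ω] [Algebra F Ω] [IsGalois F Ω] (A : Type u) [Ring A]
    [Algebra F A] (n : Type v) [Fintype n] [DecidableEq n] (f : (Ω ≃ₐ[F] Ω) → (Ω ≃ₐ[F] Ω) → Ωˣ),
    RepData F Ω A n f → f ∈ Z2 (Ω ≃ₐ[F] Ω) Ωˣ

/-- I7. Elementary operations: change of index type, of the algebra, of the cocycle; matrices over A. -/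
def RepOpStatement : Prop :=
  ∀ (F Ω : Type u) [Field F] [Field Ω] [Algebra F Ω] [IsGalois F Ω] (A : Type u) [Ring A]
    [Algebra F A] (n : Type v) [Fintype n] [DecidableEq n] (f : (Ω ≃ₐ[F] Ω) → (Ω ≃ₐ[F] Ω) → Ωˣ),
    RepData F Ω A n f →
    (∀ (m : Type) [Fintype m] [DecidableEq m], (n ≃ m) → Nonempty (RepData F Ω A m f)) ∧
    (∀ (B : Type u) [Ring B] [Algebra F B], (A ≃ₐ[F] B) → Nonempty (RepData F Ω B n f)) ∧
    (∀ f' : (Ω ≃ₐ[F] Ω) → (Ω ≃ₐ[F] Ω) → Ωˣ, f * f'⁻¹ ∈ B2 (Ω ≃ₐ[F] Ω) Ωˣ →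
      Nonempty (RepData F Ω A n f')) ∧
    (∀ p : ℕ, p ≠ 0 → Nonempty (RepData F Ω (Matrix (Fin p) (Fin p) A) (n × Fin p) f))

/-- I8. Algebras with splitting data are central simple. -/
def RepCSAStatement : Prop :=
  ∀ (F Ω : Type u) [Field F] [Field Ω] [Algebra F Ω] [IsGalois F Ω] (A : Type u) [Ring A]
    [Algebra F A] (n : Type v) [Fintype n] [DecidableEq n] (f : (Ω ≃ₐ[F] Ω) → (Ω ≃ₐ[F] Ω) → Ωˣ),
    RepData F Ω A n f → Algebra.IsCentral F A ∧ IsSimpleRing A ∧ FiniteDimensional F A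

/-- I9. A continuous cocycle comes from a finite quotient. -/
def FactorStatement : Prop :=
  ∀ (F Ω : Type u) [Field F] [Field Ω] [Algebra F Ω] [IsGalois F Ω], ∀ f ∈ Z2 (Ω ≃ₐ[F] Ω) Ωˣ,
    ∃ N : Subgroup (Ω ≃ₐ[F] Ω), N.Normal ∧ IsOpen (N : Set (Ω ≃ₐ[F] Ω)) ∧
      (∀ g h, ∀ n ∈ N, f (g * n) h = f g h ∧ f g (h * n) = f g h ∧ n • f g h = f g h)

/-- I10. Crossed products: U g (e h) = f(g,h) e (gh) on functions on G/N, and A is the algebra of matrices M with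
U g * g(M) = M * U g. -/
def DescStatement : Prop :=
  ∀ (F Ω : Type u) [Field F] [Field Ω] [Algebra F Ω] [IsGalois F Ω], ∀ f ∈ Z2 (Ω ≃ₐ[F] Ω) Ωˣ,
    ∀ N : Subgroup (Ω ≃ₐ[F] Ω), N.Normal → IsOpen (N : Set (Ω ≃ₐ[F] Ω)) →
    (∀ g h, ∀ n ∈ N, f (g * n) h = f g h ∧ f g (h * n) = f g h ∧ n • f g h = f g h) →
    ∃ (A : Type u) (_ : Ring A) (_ : Algebra F A), Nonempty (RepData F Ω A (Fin N.index) f) ∧
      Nonempty (IntermediateField.fixedField N →ₐ[F] A)

/-- I11. Uniqueness: Brauer equivalent algebras have cohomologous factor sets. -/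
def UniqStatement : Prop :=
  ∀ (F Ω : Type u) [Field F] [Field Ω] [Algebra F Ω] [IsGalois F Ω] (A B : Type u) [Ring A] [Algebra F A]
    [Ring B] [Algebra F B] (n m : ℕ) (f f' : (Ω ≃ₐ[F] Ω) → (Ω ≃ₐ[F] Ω) → Ωˣ),
    RepData F Ω A (Fin n) f → RepData F Ω B (Fin m) f' → ∀ p q : ℕ, p ≠ 0 → q ≠ 0 →
    (Matrix (Fin p) (Fin p) A ≃ₐ[F] Matrix (Fin q) (Fin q) B) → f * f'⁻¹ ∈ B2 (Ω ≃ₐ[F] Ω) Ωˣ

/-- I12. Conversely, algebras of the same degree with the same factor set are isomorphic. -/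
def ConvStatement : Prop :=
  ∀ (F Ω : Type u) [Field F] [Field Ω] [Algebra F Ω] [IsGalois F Ω] (A B : Type u) [Ring A] [Algebra F A]
    [Ring B] [Algebra F B] (n : Type v) [Fintype n] [DecidableEq n]
    (f : (Ω ≃ₐ[F] Ω) → (Ω ≃ₐ[F] Ω) → Ωˣ),
    RepData F Ω A n f → RepData F Ω B n f → Nonempty (A ≃ₐ[F] B)

/-- I13. Matrices over F have trivial factor set. -/
def RepOneStatement : Prop :=
  ∀ (F Ω : Type u) [Field F] [Field Ω] [Algebra F Ω] (n : ℕ), n ≠ 0 →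
    Nonempty (RepData F Ω (Matrix (Fin n) (Fin n) F) (Fin n) 1)

/-- I14. Tensor products. -/
def PiStatement : Prop :=
  ∀ (F Ω : Type u) [Field F] [Field Ω] [Algebra F Ω] (k : ℕ) (B : Fin k → Type u) [∀ i, Ring (B i)]
    [∀ i, Algebra F (B i)] (n : Fin k → ℕ) (f : Fin k → (Ω ≃ₐ[F] Ω) → (Ω ≃ₐ[F] Ω) → Ωˣ),
    (∀ i, Nonempty (RepData F Ω (B i) (Fin (n i)) (f i))) →
    Nonempty (RepData F Ω (⨂[F] i, B i) ((i : Fin k) → Fin (n i)) (∏ i, f i))

/-- I15. A central division algebra of dimension 49 is split by an open subgroup of index 7. -/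
def DivSevenStatement : Prop :=
  ∀ (F Ω : Type u) [Field F] [Field Ω] [Algebra F Ω] [IsGalois F Ω] [IsSepClosed Ω], (7 : F) ≠ 0 →
    ∀ (D : Type u) [DivisionRing D] [Algebra F D] [Algebra.IsCentral F D]
    (f : (Ω ≃ₐ[F] Ω) → (Ω ≃ₐ[F] Ω) → Ωˣ), RepData F Ω D (Fin 7) f →
    ∃ H : Subgroup (Ω ≃ₐ[F] Ω), IsOpen (H : Set (Ω ≃ₐ[F] Ω)) ∧ H.index = 7 ∧
      (fun g h : H => f g h) ∈ B2 H Ωˣ

/-- I16. Cyclic algebras: the factor set (a,χ) with χ not trivial comes from a central simple algebra of dimension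
49 containing a Galois extension of degree 7. -/
def CycAlgStatement : Prop :=
  ∀ (F Ω : Type u) [Field F] [Field Ω] [Algebra F Ω] [IsGalois F Ω] (a : Ωˣ)
    (χ : (Ω ≃ₐ[F] Ω) → ZMod 7), InF F a → (∀ g h, χ (g * h) = χ g + χ h) → IsLocallyConstant χ →
    (∃ g, χ g ≠ 0) →
    ∃ (A : Type u) (_ : Ring A) (_ : Algebra F A), Nonempty (RepData F Ω A (Fin 7) (cup 7 a χ)) ∧
      ∃ (K : Type u) (_ : Field K) (_ : Algebra F K), IsGalois F K ∧ Module.finrank F K = 7 ∧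
        Nonempty (K →ₐ[F] A)

/-- I17. Base change to an intermediate field K: the factor set of K ⊗ A is the restriction. -/
def BaseRepStatement : Prop :=
  ∀ (F Ω : Type u) [Field F] [Field Ω] [Algebra F Ω] [IsGalois F Ω] (A : Type u) [Ring A] [Algebra F A]
    (n : Type v) [Fintype n] [DecidableEq n] (f : (Ω ≃ₐ[F] Ω) → (Ω ≃ₐ[F] Ω) → Ωˣ),
    RepData F Ω A n f → ∀ (K : IntermediateField F Ω) [FiniteDimensional F K],
    Nonempty (RepData K Ω (K ⊗[F] A) n (fun g h => f (g.restrictScalars F) (h.restrictScalars F)))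

/-- I18. Restriction to the subgroup fixing K, compared with the Galois group over K. -/
def BaseB2Statement : Prop :=
  ∀ (F Ω : Type u) [Field F] [Field Ω] [Algebra F Ω] [IsGalois F Ω]
    (f : (Ω ≃ₐ[F] Ω) → (Ω ≃ₐ[F] Ω) → Ωˣ) (K : IntermediateField F Ω),
    (fun g h : K.fixingSubgroup => f g h) ∈ B2 K.fixingSubgroup Ωˣ →
    (fun g h : Ω ≃ₐ[K] Ω => f (g.restrictScalars F) (h.restrictScalars F)) ∈ B2 (Ω ≃ₐ[K] Ω) Ωˣ

/-- I19. If the set of Brauer classes (Mathlib) is finite then the second cohomology group is finite. -/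
def FinBrStatement : Prop :=
  ∀ (F : Type u) [Field F], Finite (BrauerGroup.{u, u} F) →
    Finite (H2 (SeparableClosure F ≃ₐ[F] SeparableClosure F) (SeparableClosure F)ˣ)

/-- I20. Every central simple algebra of dimension 49 is a matrix algebra over F or a division algebra. -/
def DegSevenStatement : Prop :=
  ∀ (F : Type u) [Field F] (A : Type u) [Ring A] [Algebra F A] [Algebra.IsCentral F A] [IsSimpleRing A],
    Module.finrank F A = 49 →
    Nonempty (A ≃ₐ[F] Matrix (Fin 7) (Fin 7) F) ∨ ∀ a : A, a ≠ 0 → IsUnit a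

end BR7
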