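import Pool.Agent.Lib.MP_defcf3_al.BR.BaseC

/-!
Project BR7, stage 2, part T: corestriction, symbols over finite G-sets, Rosset-Tate, Sylow step, and the
cohomological Theorem C (over every field of characteristic different from 7 a class which is split by an
extension of degree 7 is a product of classes of cyclic algebras of degree 7).
-/

namespace BR7

universe u

section Groups

/-- T1. A cocycle of the action groupoid of G/H whose restriction to H is a coboundary is a coboundary. -/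
def SplXStatement : Prop :=
  ∀ (G A : Type u) [Group G] [TopologicalSpace G] [IsTopologicalGroup G] [CommGroup A]
    [MulDistribMulAction G A], Disc G A → ∀ (H : Subgroup G), IsOpen (H : Set G) →
    ∀ (Fc : G → G → (G ⧸ H) → A), (∀ x, IsLocallyConstant (fun p : G × G => Fc p.1 p.2 x)) →
    (∀ g h k x, Fc g h (k • x) * Fc (g * h) k x = (g • Fc h k x) * Fc g (h * k) x) →
    (fun g h : H => Fc g h (QuotientGroup.mk 1)) ∈ B2 H A →
    ∃ a : G → (G ⧸ H) → A, (∀ x, IsLocallyConstant (fun g => a g x)) ∧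
      ∀ g h x, Fc g h x = a g (h • x) * (g • a h x) * (a (g * h) x)⁻¹

/-- T2. Corestriction after restriction is multiplication by the index. -/
def CorResStatement : Prop :=
  ∀ (G A : Type u) [Group G] [TopologicalSpace G] [IsTopologicalGroup G] [CommGroup A]
    [MulDistribMulAction G A], Disc G A → ∀ (H : Subgroup G), IsOpen (H : Set G) → H.FiniteIndex →
    ∀ f ∈ Z2 G A, (fun g h : H => f g h) ∈ B2 H A → f ^ H.index ∈ B2 G A

/-- T3. If f restricted to H is the cup product (u,ψ) at the base point, then the corestriction of f, that is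
f to the power of the index, is the corestricted cup product. -/
def CorCupStatement : Prop :=
  ∀ (G A : Type u) [Group G] [TopologicalSpace G] [IsTopologicalGroup G] [CommGroup A]
    [MulDistribMulAction G A], Disc G A → ∀ (H : Subgroup G), IsOpen (H : Set G) →
    ∀ [Fintype (G ⧸ H)] (n : ℕ) [NeZero n], ∀ f ∈ Z2 G A, ∀ (u : G ⧸ H → A) (ψ : G → G ⧸ H → ZMod n),
    EqvF (G := G) u → GChar n ψ → (∀ x, IsLocallyConstant (fun g => ψ g x)) →
    (fun g h : H => f g h * (cup n (u (QuotientGroup.mk 1)) (fun k : H => ψ k (QuotientGroup.mk 1)) g h)⁻¹)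
      ∈ B2 H A →
    f ^ (Fintype.card (G ⧸ H)) * (gcup n u ψ)⁻¹ ∈ B2 G A

/-- T4. Sylow step: an open subgroup of index 7 becomes the kernel of a character after passing to an open
subgroup of index prime to 7. -/
def SylStatement : Prop :=
  ∀ (G : Type u) [Group G] [TopologicalSpace G] [IsTopologicalGroup G] (H : Subgroup G),
    IsOpen (H : Set G) → H.index = 7 →
    ∃ (P : Subgroup G) (χ : P → ZMod 7), IsOpen (P : Set G) ∧ Nat.Coprime P.index 7 ∧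
      (∀ g h, χ (g * h) = χ g + χ h) ∧ IsLocallyConstant χ ∧ ∀ g : P, χ g = 0 → (g : G) ∈ H

end Groups

section SymX

variable (F : Type u) {Ω : Type u} [Field F] [Field Ω] [Algebra F Ω]

/-- Kummer character of the groupoid attached to an equivariant function. -/
noncomputable def kumX (ζ : Ωˣ) {X : Type u} [MulAction (HZ F ζ) X] (v : X → Ωˣ) :
    HZ F ζ → X → ZMod 7 :=
  fun h x => dlog 7 ζ ((h • root7 (v x)) * (root7 (v (h • x)))⁻¹)

/-- The corestriction to Br(L) of the symbol {u,v} over the etale algebra of the finite G-set X. -/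
noncomputable def symX (ζ : Ωˣ) {X : Type u} [MulAction (HZ F ζ) X] [Fintype X] (u v : X → Ωˣ) :
    H2 (HZ F ζ) Ωˣ :=
  cls (HZ F ζ) Ωˣ (gcup 7 u (kumX F ζ v))

end SymX

/-- T5. Properties of the Kummer character of the groupoid. -/
def KumXStatement : Prop :=
  ∀ (F Ω : Type u) [Field F] [Field Ω] [Algebra F Ω] [IsGalois F Ω] [IsSepClosed Ω] (ζ : Ωˣ),
    IsPrimitiveRoot ζ 7 → ∀ (X : Type u) [MulAction (HZ F ζ) X], OpenStab (HZ F ζ) X →
    ∀ v : X → Ωˣ, EqvF (G := HZ F ζ) v →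
    GChar 7 (kumX F ζ v) ∧ (∀ x, IsLocallyConstant (fun h => kumX F ζ v h x)) ∧
    (∀ θ : X → Ωˣ, (∀ x, θ x ^ 7 = v x) → ∀ ψ : HZ F ζ → X → ZMod 7,
      (∀ h x, h • θ x = ζ ^ (ψ h x).val * θ (h • x)) →
      ∃ ρ : X → ZMod 7, ∀ h x, ψ h x = kumX F ζ v h x + (ρ (h • x) - ρ x))

/-- T6. Bilinearity and torsion of symbols over G-sets. -/
def SymXAddStatement : Prop :=
  ∀ (F Ω : Type u) [Field F] [Field Ω] [Algebra F Ω] [IsGalois F Ω] [IsSepClosed Ω] (ζ : Ωˣ),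
    IsPrimitiveRoot ζ 7 → ∀ (X : Type u) [MulAction (HZ F ζ) X] [Fintype X], OpenStab (HZ F ζ) X →
    (∀ u v : X → Ωˣ, EqvF (G := HZ F ζ) u → EqvF (G := HZ F ζ) v →
      gcup 7 u (kumX F ζ v) ∈ Z2 (HZ F ζ) Ωˣ ∧ symX F ζ u v ^ 7 = 1) ∧
    (∀ u u' v : X → Ωˣ, EqvF (G := HZ F ζ) u → EqvF (G := HZ F ζ) u' → EqvF (G := HZ F ζ) v →
      symX F ζ (u * u') v = symX F ζ u v * symX F ζ u' v) ∧
    (∀ u v v' : X → Ωˣ, EqvF (G := HZ F ζ) u → EqvF (G := HZ F ζ) v → EqvF (G := HZ F ζ) v' →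
      symX F ζ u (v * v') = symX F ζ u v * symX F ζ u v')

/-- T7. Projection formula and comparison with the symbols over the base. -/
def SymXPushStatement : Prop :=
  ∀ (F Ω : Type u) [Field F] [Field Ω] [Algebra F Ω] [IsGalois F Ω] [IsSepClosed Ω] (ζ : Ωˣ),
    IsPrimitiveRoot ζ 7 → (∀ (X Y : Type u) [MulAction (HZ F ζ) X] [Fintype X]
      [MulAction (HZ F ζ) Y] [Fintype Y] [DecidableEq Y] (π : X → Y),
      (∀ (h : HZ F ζ) (x : X), π (h • x) = h • π x) → ∀ (u : X → Ωˣ) (v : Y → Ωˣ),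
      symX F ζ u (v ∘ π) = symX F ζ (fun y => ∏ x ∈ Finset.univ.filter (fun x => π x = y), u x) v) ∧
    (∀ (X : Type u) [MulAction (HZ F ζ) X] [Fintype X] (x0 : X), (∀ x : X, x = x0) → ∀ a b : Ωˣ,
      symX F ζ (fun _ : X => a) (fun _ => b) = symb F ζ a b)

/-- T8. Self symbols and the Steinberg relation over G-sets. Proof: pass to the G-set Y of pairs (x,θ) with
θ^7 = v x; u x is the product of the θ (self symbols), respectively of the 1 - θ (Steinberg); by the projection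
formula the symbol is {w, θ^7} over Y, which vanishes. -/
def SymXSteinStatement : Prop :=
  ∀ (F Ω : Type u) [Field F] [Field Ω] [Algebra F Ω] [IsGalois F Ω] [IsSepClosed Ω] (ζ : Ωˣ),
    IsPrimitiveRoot ζ 7 → ∀ (X : Type u) [MulAction (HZ F ζ) X] [Fintype X], OpenStab (HZ F ζ) X →
    (∀ v : X → Ωˣ, EqvF (G := HZ F ζ) v → symX F ζ v v = 1) ∧
    (∀ u v : X → Ωˣ, EqvF (G := HZ F ζ) u → EqvF (G := HZ F ζ) v → (∀ x, (u x : Ω) + (v x : Ω) = 1) →
      symX F ζ u v = 1)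

/-- T9. The identity {α-β,α} + {α,β} = {α-β,β}. -/
def SymXIdentStatement : Prop :=
  ∀ (F Ω : Type u) [Field F] [Field Ω] [Algebra F Ω] [IsGalois F Ω] [IsSepClosed Ω] (ζ : Ωˣ),
    IsPrimitiveRoot ζ 7 → ∀ (X : Type u) [MulAction (HZ F ζ) X] [Fintype X], OpenStab (HZ F ζ) X →
    (∀ u v : X → Ωˣ, EqvF (G := HZ F ζ) u → EqvF (G := HZ F ζ) v → symX F ζ u v * symX F ζ v u = 1) ∧
    (∀ α β w : X → Ωˣ, EqvF (G := HZ F ζ) α → EqvF (G := HZ F ζ) β → EqvF (G := HZ F ζ) w →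
      (∀ x, (w x : Ω) = (α x : Ω) - (β x : Ω)) → symX F ζ w α * symX F ζ α β = symX F ζ w β)

/-- T9b. The same identity with invariant exponents. Proof: apply T9 to the G-set of pairs (x,j), j < m x, and the
projection formula. -/
def SymXMulStatement : Prop :=
  ∀ (F Ω : Type u) [Field F] [Field Ω] [Algebra F Ω] [IsGalois F Ω] [IsSepClosed Ω] (ζ : Ωˣ),
    IsPrimitiveRoot ζ 7 → ∀ (X : Type u) [MulAction (HZ F ζ) X] [Fintype X], OpenStab (HZ F ζ) X →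
    ∀ α β w : X → Ωˣ, EqvF (G := HZ F ζ) α → EqvF (G := HZ F ζ) β → EqvF (G := HZ F ζ) w →
    ∀ m : X → ℕ, (∀ (h : HZ F ζ) (x : X), m (h • x) = m x) →
    (∀ x, (w x : Ω) = (α x : Ω) - (β x : Ω)) →
    symX F ζ (fun x => w x ^ m x) α * symX F ζ (fun x => α x ^ m x) β = symX F ζ (fun x => w x ^ m x) β

/-- T10. Interpolation: u is a polynomial function of v of degree smaller than the cardinality of X; after
raising everything to a power Q of the exponential characteristic the polynomial splits over Ω. -/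
def LagStatement : Prop :=
  ∀ (F Ω : Type u) [Field F] [Field Ω] [Algebra F Ω] [IsGalois F Ω] [IsSepClosed Ω] (ζ : Ωˣ),
    IsPrimitiveRoot ζ 7 → ∀ (X : Type u) [MulAction (HZ F ζ) X] [Fintype X] [Nonempty X] (u v : X → Ωˣ),
    EqvF (G := HZ F ζ) u → EqvF (G := HZ F ζ) v → Function.Injective v →
    ∃ (Q : ℕ) (c : Ωˣ) (k : ℕ) (R : Type u) (_ : MulAction (HZ F ζ) R) (_ : Fintype R) (β : R → Ωˣ)
      (m : R → ℕ), Nat.Coprime Q 7 ∧ OpenStab (HZ F ζ) R ∧ InL F ζ c ∧ EqvF (G := HZ F ζ) β ∧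
      (∀ (h : HZ F ζ) (r : R), m (h • r) = m r) ∧ (∀ r, m r ≠ 0) ∧ Fintype.card R < Fintype.card X ∧
      ∀ x, ((u x ^ Q : Ωˣ) : Ω) = c * ((v x ^ Q : Ωˣ) : Ω) ^ k * ∏ r, (((v x ^ Q : Ωˣ) : Ω) - β r) ^ m r

/-- T11. Rosset-Tate: corestrictions of symbols are products of symbols. Induction on the cardinality of X. If v
is not injective, use the projection formula for X → v(X). If v is injective, use LAG: up to factors
{c,..} and {v,v} the Q^2-th power of the symbol is the symbol of (v^Q-β)^m and v^Q over X x R, by IDENT it is a product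
of symbols pulled back from R, and R is smaller. -/
def RTStatement : Prop :=
  ∀ (F Ω : Type u) [Field F] [Field Ω] [Algebra F Ω] [IsGalois F Ω] [IsSepClosed Ω] (ζ : Ωˣ),
    IsPrimitiveRoot ζ 7 → ∀ (X : Type u) [MulAction (HZ F ζ) X] [Fintype X], OpenStab (HZ F ζ) X →
    ∀ u v : X → Ωˣ, EqvF (G := HZ F ζ) u → EqvF (G := HZ F ζ) v →
    symX F ζ u v ∈ Subgroup.closure {s | ∃ a b : Ωˣ, InL F ζ a ∧ InL F ζ b ∧ s = symb F ζ a b}

/-- T12. Kummer theory for an open subgroup of the stabilizer of ζ. -/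
def KumSurjStatement : Prop :=
  ∀ (F Ω : Type u) [Field F] [Field Ω] [Algebra F Ω] [IsGalois F Ω] [IsSepClosed Ω] (ζ : Ωˣ),
    IsPrimitiveRoot ζ 7 → ∀ (P : Subgroup (HZ F ζ)), IsOpen (P : Set (HZ F ζ)) → ∀ χ : P → ZMod 7,
    (∀ g h, χ (g * h) = χ g + χ h) → IsLocallyConstant χ →
    ∃ θ : Ωˣ, ∀ g : P, g • θ = ζ ^ (χ g).val * θ

/-- T13. A class over F which is split by an open subgroup of index 7 becomes (up to a power prime to 7) a product
of symbols over L. -/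
def SevenSymStatement : Prop :=
  ∀ (F Ω : Type u) [Field F] [Field Ω] [Algebra F Ω] [IsGalois F Ω] [IsSepClosed Ω] (ζ : Ωˣ),
    IsPrimitiveRoot ζ 7 → ∀ f ∈ Z2 (Ω ≃ₐ[F] Ω) Ωˣ, ∀ H : Subgroup (Ω ≃ₐ[F] Ω),
    IsOpen (H : Set (Ω ≃ₐ[F] Ω)) → H.index = 7 → (fun g h : H => f g h) ∈ B2 H Ωˣ →
    ∃ m : ℕ, Nat.Coprime m 7 ∧ cls (HZ F ζ) Ωˣ (fun g h : HZ F ζ => f g h) ^ m ∈
      Subgroup.closure {s | ∃ a b : Ωˣ, InL F ζ a ∧ InL F ζ b ∧ s = symb F ζ a b}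

/-- T14. Variant of TRIV without any assumption: the norm to F of a symbol with one entry in F is a cyclic class. -/
def TrivCStatement : Prop :=
  ∀ (F Ω : Type u) [Field F] [Field Ω] [Algebra F Ω] [IsGalois F Ω] [IsSepClosed Ω] (ζ : Ωˣ),
    IsPrimitiveRoot ζ 7 →
    ∀ (γ : Ω ≃ₐ[F] Ω) (d : ℕ) (hH : ∀ i : ℕ, ∀ h ∈ HZ F ζ, (γ ^ i)⁻¹ * h * γ ^ i ∈ HZ F ζ),
    (∀ g : Ω ≃ₐ[F] Ω, ∃! i : Fin d, g • ζ = (γ ^ (i : ℕ)) • ζ) →
    ∀ f l : Ωˣ, InF F f → InL F ζ l →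
    ∃ χ : (Ω ≃ₐ[F] Ω) → ZMod 7, (∀ g h, χ (g * h) = χ g + χ h) ∧ IsLocallyConstant χ ∧
      (∏ i : Fin d, conjC (HZ F ζ) (γ ^ (i : ℕ)) (hH i) (cup 7 f (kum F ζ l))) *
        (cup 7 f (fun h : HZ F ζ => χ h))⁻¹ ∈ B2 (HZ F ζ) Ωˣ

/-- T15. Every field: a class over F which becomes a product of symbols over L is, over L, a product of cyclic
classes defined over F. Proof: as MAIN, in the quotient of H2(HZ) by the cyclic classes. -/
def MainCStatement : Prop :=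
  ∀ (F Ω : Type u) [Field F] [Field Ω] [Algebra F Ω] [IsGalois F Ω] [IsSepClosed Ω] (ζ : Ωˣ),
    IsPrimitiveRoot ζ 7 → ∀ x ∈ Z2 (Ω ≃ₐ[F] Ω) Ωˣ,
    cls (HZ F ζ) Ωˣ (fun g h : HZ F ζ => x g h) ∈
      Subgroup.closure {s | ∃ a b : Ωˣ, InL F ζ a ∧ InL F ζ b ∧ s = symb F ζ a b} →
    cls (HZ F ζ) Ωˣ (fun g h : HZ F ζ => x g h) ∈
      Subgroup.closure {s | ∃ (a : Ωˣ) (χ : (Ω ≃ₐ[F] Ω) → ZMod 7), InF F a ∧
        (∀ g h, χ (g * h) = χ g + χ h) ∧ IsLocallyConstant χ ∧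
        s = cls (HZ F ζ) Ωˣ (cup 7 a (fun h : HZ F ζ => χ h))}

/-- T16. Cohomological Theorem C. -/
def CohCStatement : Prop :=
  ∀ (F Ω : Type u) [Field F] [Field Ω] [Algebra F Ω] [IsGalois F Ω] [IsSepClosed Ω], (7 : F) ≠ 0 →
    ∀ f ∈ Z2 (Ω ≃ₐ[F] Ω) Ωˣ, ∀ H : Subgroup (Ω ≃ₐ[F] Ω),
    IsOpen (H : Set (Ω ≃ₐ[F] Ω)) → H.index = 7 → (fun g h : H => f g h) ∈ B2 H Ωˣ →
    cls (Ω ≃ₐ[F] Ω) Ωˣ f ∈ Subgroup.closure {s | ∃ (a : Ωˣ) (χ : (Ω ≃ₐ[F] Ω) → ZMod 7), InF F a ∧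
        (∀ g h, χ (g * h) = χ g + χ h) ∧ IsLocallyConstant χ ∧ s = cls (Ω ≃ₐ[F] Ω) Ωˣ (cup 7 a χ)}

/-- T17. Theorem C for every class of order 7 which becomes a product of symbols over L. -/
def CohSStatement : Prop :=
  ∀ (F Ω : Type u) [Field F] [Field Ω] [Algebra F Ω] [IsGalois F Ω] [IsSepClosed Ω] (ζ : Ωˣ),
    IsPrimitiveRoot ζ 7 → ∀ x ∈ Z2 (Ω ≃ₐ[F] Ω) Ωˣ, cls (Ω ≃ₐ[F] Ω) Ωˣ x ^ 7 = 1 →
    cls (HZ F ζ) Ωˣ (fun g h : HZ F ζ => x g h) ∈
      Subgroup.closure {s | ∃ a b : Ωˣ, InL F ζ a ∧ InL F ζ b ∧ s = symb F ζ a b} →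
    cls (Ω ≃ₐ[F] Ω) Ωˣ x ∈ Subgroup.closure {s | ∃ (a : Ωˣ) (χ : (Ω ≃ₐ[F] Ω) → ZMod 7), InF F a ∧
        (∀ g h, χ (g * h) = χ g + χ h) ∧ IsLocallyConstant χ ∧ s = cls (Ω ≃ₐ[F] Ω) Ωˣ (cup 7 a χ)}

end BR7
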