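import Pool.Agent.Lib.MP_defcf3_al.BR.BaseC

/-!
Project BR7, stage 3: the divisible part. Every nonzero cyclic class of degree 7 lies in the first layer of a
quasicyclic subgroup of the Brauer group (Brumer-Rosen alternative).
-/

namespace BR7

universe u

/-- The corestriction from the normal open subgroup N of the cup product of w (fixed by N) with the character ψ
of N (only the values of ψ on N matter). -/
noncomputable def corN {G A : Type u} [Group G] [CommGroup A] [MulDistribMulAction G A] (N : Subgroup G)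
    [Fintype (G ⧸ N)] (n : ℕ) (w : A) (ψ : G → ZMod n) : G → G → A :=
  gcup (X := G ⧸ N) n (fun x => (Quotient.out x) • w)
    (fun g x => ψ ((Quotient.out (g • x))⁻¹ * g * Quotient.out x))

/-- N is normal and open, ψ is a continuous character of N. -/
structure NChar {G : Type u} [Group G] [TopologicalSpace G] (N : Subgroup G) (n : ℕ) (ψ : G → ZMod n) : Prop where
  normal : N.Normal
  isOpen : IsOpen (N : Set G)
  add : ∀ g ∈ N, ∀ h ∈ N, ψ (g * h) = ψ g + ψ h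
  lc : IsLocallyConstant ψ

/-- D1. Basic properties of corN. -/
def CorNStatement : Prop :=
  ∀ (G A : Type u) [Group G] [TopologicalSpace G] [IsTopologicalGroup G] [CommGroup A]
    [MulDistribMulAction G A], Disc G A → ∀ (N : Subgroup G) [Fintype (G ⧸ N)] (n : ℕ) [NeZero n]
    (ψ : G → ZMod n), NChar N n ψ →
    (∀ w : A, (∀ g ∈ N, g • w = w) → corN N n w ψ ∈ Z2 G A ∧ corN N n w ψ ^ n ∈ B2 G A) ∧
    (∀ w w' : A, corN N n (w * w') ψ = corN N n w ψ * corN N n w' ψ) ∧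
    (∀ (w : A) (r : ℕ), (∀ g ∈ N, g • w = w) →
      corN N n w (fun g => (r : ZMod n) * ψ g) * (corN N n w ψ ^ r)⁻¹ ∈ B2 G A) ∧
    (∀ (w : A) (ψ' : G → ZMod n), (∀ g ∈ N, ψ g = ψ' g) → corN N n w ψ = corN N n w ψ') ∧
    (∀ (w : A) (σ : G), (∀ g ∈ N, g • w = w) →
      corN N n (σ • w) ψ * (corN N n w (fun h => ψ (σ * h * σ⁻¹)))⁻¹ ∈ B2 G A)

/-- D2. Transitivity: for N' ≤ N and w' fixed by N' with norm w1 to the fixed points of N. -/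
def CorNResStatement : Prop :=
  ∀ (G A : Type u) [Group G] [TopologicalSpace G] [IsTopologicalGroup G] [CommGroup A]
    [MulDistribMulAction G A], Disc G A → ∀ (N N' : Subgroup G) [Fintype (G ⧸ N)] [Fintype (G ⧸ N')]
    (n : ℕ) [NeZero n] (ψ : G → ZMod n), N' ≤ N → NChar N n ψ → NChar N' n ψ →
    ∀ w' : A, (∀ g ∈ N', g • w' = w') → ∃ w1 : A, (∀ g ∈ N, g • w1 = w1) ∧
      (∏ x : G ⧸ N, (Quotient.out x) • w1 = ∏ y : G ⧸ N', (Quotient.out y) • w') ∧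
      corN N' n w' ψ * (corN N n w1 ψ)⁻¹ ∈ B2 G A

/-- D3. Change of modulus. -/
def CorNModStatement : Prop :=
  ∀ (G A : Type u) [Group G] [TopologicalSpace G] [IsTopologicalGroup G] [CommGroup A]
    [MulDistribMulAction G A], Disc G A → ∀ (N : Subgroup G) [Fintype (G ⧸ N)]
    (n k m : ℕ) [NeZero n] [NeZero k] [NeZero m] (hd : n ∣ m), m = n * k →
    ∀ (ψ : G → ZMod m), NChar N m ψ → ∀ w : A, (∀ g ∈ N, g • w = w) →
    corN N m w ψ ^ k * (corN N n w (fun g => ZMod.castHom hd (ZMod n) (ψ g)))⁻¹ ∈ B2 G A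

/-- D4. Hilbert 90 for a cyclic quotient. -/
def H90CycStatement : Prop :=
  ∀ (F Ω : Type u) [Field F] [Field Ω] [Algebra F Ω] [IsGalois F Ω] (N : Subgroup (Ω ≃ₐ[F] Ω)),
    N.Normal → IsOpen (N : Set (Ω ≃ₐ[F] Ω)) → ∀ [Fintype ((Ω ≃ₐ[F] Ω) ⧸ N)] (σ : Ω ≃ₐ[F] Ω),
    (∀ g : Ω ≃ₐ[F] Ω, ∃ i : ℕ, (σ ^ i)⁻¹ * g ∈ N) → ∀ w : Ωˣ, (∀ g ∈ N, g • w = w) →
    (∏ x : (Ω ≃ₐ[F] Ω) ⧸ N, (Quotient.out x) • w = 1) →
    ∃ e : Ωˣ, (∀ g ∈ N, g • e = e) ∧ w * e = σ • e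

/-- A compatible system of primitive roots of unity of order 7^(n+1) starting with ζ. -/
def RootSys {Ω : Type u} [Field Ω] (ζ : Ωˣ) (η : ℕ → Ωˣ) : Prop :=
  η 0 = ζ ∧ (∀ n, IsPrimitiveRoot (η n) (7 ^ (n + 1))) ∧ ∀ n, η (n + 1) ^ 7 = η n

/-- D5. Roots of unity and cyclotomic characters. -/
def EtaStatement : Prop :=
  ∀ (F Ω : Type u) [Field F] [Field Ω] [Algebra F Ω] [IsGalois F Ω] [IsSepClosed Ω] (ζ : Ωˣ),
    IsPrimitiveRoot ζ 7 → ∃ (η : ℕ → Ωˣ) (X : (n : ℕ) → (Ω ≃ₐ[F] Ω) → ZMod (7 ^ n)), RootSys ζ η ∧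
      (∀ n g h, X n (g * h) = X n g + X n h) ∧ (∀ n, IsLocallyConstant (X n)) ∧
      (∀ n g, ZMod.castHom (pow_dvd_pow 7 (Nat.le_succ n)) (ZMod (7 ^ n)) (X (n + 1) g) = X n g) ∧
      (∀ n g, g • η n = η n ↔ g • ζ = ζ ∧ X n g = 0) ∧
      (∀ n, ∃ σ : Ω ≃ₐ[F] Ω, ∀ g : Ω ≃ₐ[F] Ω, ∃ i : ℕ, ((σ ^ i)⁻¹ * g) • η n = η n)

/-- D6. The tower of characters: a character of order 7 of G extends to a compatible system of characters of the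
stabilizers of the roots of unity, on which G acts through multiplication by residues congruent to 1 modulo 7. -/
def TowerStatement : Prop :=
  ∀ (F Ω : Type u) [Field F] [Field Ω] [Algebra F Ω] [IsGalois F Ω] [IsSepClosed Ω] (ζ : Ωˣ),
    IsPrimitiveRoot ζ 7 → ∀ η : ℕ → Ωˣ, RootSys ζ η → ∀ χ : (Ω ≃ₐ[F] Ω) → ZMod 7,
    (∀ g h, χ (g * h) = χ g + χ h) → IsLocallyConstant χ →
    ∃ ψ : (n : ℕ) → (Ω ≃ₐ[F] Ω) → ZMod (7 ^ (n + 1)),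
      (∀ n, NChar (MulAction.stabilizer (Ω ≃ₐ[F] Ω) (η n)) (7 ^ (n + 1)) (ψ n)) ∧
      (∀ n g, g • η (n + 1) = η (n + 1) →
        ZMod.castHom (pow_dvd_pow 7 (Nat.le_succ (n + 1))) (ZMod (7 ^ (n + 1))) (ψ (n + 1) g) = ψ n g) ∧
      (∀ n (σ : Ω ≃ₐ[F] Ω), ∃ r : ℕ, r % 7 = 1 ∧ ∀ h, h • η n = η n →
        ψ n (σ * h * σ⁻¹) = (r : ZMod (7 ^ (n + 1))) * ψ n h) ∧
      (∀ g, g • ζ = ζ → (ψ 0 g).val = (χ g).val)

/-- The Brauer group of F contains a quasicyclic 7-group (equivalently, a nonzero divisible 7-primary subgroup). -/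
def HasQuasi (F Ω : Type u) [Field F] [Field Ω] [Algebra F Ω] : Prop :=
  ∃ y : ℕ → (Ω ≃ₐ[F] Ω) → (Ω ≃ₐ[F] Ω) → Ωˣ, (∀ n, y n ∈ Z2 (Ω ≃ₐ[F] Ω) Ωˣ) ∧
    y 0 ∉ B2 (Ω ≃ₐ[F] Ω) Ωˣ ∧ y 0 ^ 7 ∈ B2 (Ω ≃ₐ[F] Ω) Ωˣ ∧
    ∀ n, y n * (y (n + 1) ^ 7)⁻¹ ∈ B2 (Ω ≃ₐ[F] Ω) Ωˣ

/-- D7. If (a, cyclotomic character) does not vanish then there is a quasicyclic subgroup. -/
def QuasiAStatement : Prop :=
  ∀ (F Ω : Type u) [Field F] [Field Ω] [Algebra F Ω] [IsGalois F Ω]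
    (X : (n : ℕ) → (Ω ≃ₐ[F] Ω) → ZMod (7 ^ n)),
    (∀ n g h, X n (g * h) = X n g + X n h) → (∀ n, IsLocallyConstant (X n)) →
    (∀ n g, ZMod.castHom (pow_dvd_pow 7 (Nat.le_succ n)) (ZMod (7 ^ n)) (X (n + 1) g) = X n g) →
    ∀ (a : Ωˣ) (n : ℕ), InF F a → cup (7 ^ n) a (X n) ∉ B2 (Ω ≃ₐ[F] Ω) Ωˣ → HasQuasi F Ω

/-- D8. A subgroup of H2 generated by 7-primary elements each of which is a 7th power of an element of the
subgroup, and not trivial, contains a quasicyclic group. -/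
def QuasiBStatement : Prop :=
  ∀ (F Ω : Type u) [Field F] [Field Ω] [Algebra F Ω] (D : Subgroup (H2 (Ω ≃ₐ[F] Ω) Ωˣ)),
    D ≠ ⊥ → (∀ x ∈ D, ∃ j : ℕ, x ^ (7 ^ j) = 1) → (∀ x ∈ D, ∃ y ∈ D, y ^ 7 = x) → HasQuasi F Ω

/-- D9. Merkurjev's theorem for p = 7: a nonzero cyclic class of degree 7 forces a quasicyclic subgroup. -/
def CycDivStatement : Prop :=
  ∀ (F Ω : Type u) [Field F] [Field Ω] [Algebra F Ω] [IsGalois F Ω] [IsSepClosed Ω] (ζ : Ωˣ),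
    IsPrimitiveRoot ζ 7 → ∀ (a : Ωˣ) (χ : (Ω ≃ₐ[F] Ω) → ZMod 7), InF F a →
    (∀ g h, χ (g * h) = χ g + χ h) → IsLocallyConstant χ → cup 7 a χ ∉ B2 (Ω ≃ₐ[F] Ω) Ωˣ → HasQuasi F Ω

end BR7
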