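import Pool.Agent.Lib.MP_defcf3_al.BR.StageI
import Pool.Agent.Lib.MP_defcf3_al.BR.StageD

/-!
Project BR7, stage 4: algebraic form of the theorem for classes which become products of cyclic algebras over
F(ζ).
-/

open scoped TensorProduct

namespace BR7

universe u v

/-- E1. The factor set of an algebra of degree 7 containing a Galois extension of degree 7 is a cup product. -/
def CycFacStatement : Prop :=
  ∀ (F Ω : Type u) [Field F] [Field Ω] [Algebra F Ω] [IsGalois F Ω] [IsSepClosed Ω] (B : Type u) [Ring B]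
    [Algebra F B] (f : (Ω ≃ₐ[F] Ω) → (Ω ≃ₐ[F] Ω) → Ωˣ), RepData F Ω B (Fin 7) f →
    ∀ (K : Type u) [Field K] [Algebra F K], IsGalois F K → Module.finrank F K = 7 → (K →ₐ[F] B) →
    ∃ (a : Ωˣ) (χ : (Ω ≃ₐ[F] Ω) → ZMod 7), InF F a ∧ (∀ g h, χ (g * h) = χ g + χ h) ∧
      IsLocallyConstant χ ∧ f * (cup 7 a χ)⁻¹ ∈ B2 (Ω ≃ₐ[F] Ω) Ωˣ

/-- E2. The degree kills the class: f ^ n is a coboundary. -/
def DetStatement : Prop :=
  ∀ (F Ω : Type u) [Field F] [Field Ω] [Algebra F Ω] [IsGalois F Ω] (A : Type u) [Ring A] [Algebra F A]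
    (n : ℕ) (f : (Ω ≃ₐ[F] Ω) → (Ω ≃ₐ[F] Ω) → Ωˣ), RepData F Ω A (Fin n) f → f ^ n ∈ B2 (Ω ≃ₐ[F] Ω) Ωˣ

/-- E3. Base change to an extension L of F contained in Ω. -/
def BaseLStatement : Prop :=
  ∀ (F L Ω : Type u) [Field F] [Field L] [Field Ω] [Algebra F L] [Algebra L Ω] [Algebra F Ω]
    [IsScalarTower F L Ω] [IsGalois F Ω] [FiniteDimensional F L] (A : Type u) [Ring A] [Algebra F A]
    (n : Type v) [Fintype n] [DecidableEq n] (f : (Ω ≃ₐ[F] Ω) → (Ω ≃ₐ[F] Ω) → Ωˣ),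
    RepData F Ω A n f →
    Nonempty (RepData L Ω (L ⊗[F] A) n (fun g h => f (g.restrictScalars F) (h.restrictScalars F)))

/-- E4. Translation between the Galois group of Ω over L = F(ζ) and the stabilizer of ζ. -/
def LTransStatement : Prop :=
  ∀ (F L Ω : Type u) [Field F] [Field L] [Field Ω] [Algebra F L] [Algebra L Ω] [Algebra F Ω]
    [IsScalarTower F L Ω] [IsGalois F Ω] [IsSepClosed Ω] (ζ : Ωˣ), IsPrimitiveRoot ζ 7 →
    IsCyclotomicExtension {7} F L → ∀ f ∈ Z2 (Ω ≃ₐ[F] Ω) Ωˣ,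
    ∀ (k : ℕ) (a : Fin k → Ωˣ) (χ : Fin k → (Ω ≃ₐ[L] Ω) → ZMod 7), (∀ i, InF L (a i)) →
    (∀ i g h, χ i (g * h) = χ i g + χ i h) → (∀ i, IsLocallyConstant (χ i)) →
    (fun g h : Ω ≃ₐ[L] Ω => f (g.restrictScalars F) (h.restrictScalars F)) *
      (∏ i, cup 7 (a i) (χ i))⁻¹ ∈ B2 (Ω ≃ₐ[L] Ω) Ωˣ →
    cls (HZ F ζ) Ωˣ (fun g h : HZ F ζ => f g h) ∈
      Subgroup.closure {s | ∃ a b : Ωˣ, InL F ζ a ∧ InL F ζ b ∧ s = symb F ζ a b}

/-- E5. A quasicyclic subgroup in terms of algebras. -/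
def SeqStatement : Prop :=
  ∀ (F : Type u) [Field F], HasQuasi F (SeparableClosure F) →
    ∃ (A : ℕ → Type u) (_ : ∀ n, Ring (A n)) (_ : ∀ n, Algebra F (A n)),
      (∀ n, Algebra.IsCentral F (A n) ∧ IsSimpleRing (A n) ∧ FiniteDimensional F (A n)) ∧
      (∀ m : ℕ, IsEmpty (A 0 ≃ₐ[F] Matrix (Fin m) (Fin m) F)) ∧
      (∃ m : ℕ, Nonempty ((⨂[F] (_ : Fin 7), A 0) ≃ₐ[F] Matrix (Fin m) (Fin m) F)) ∧
      ∀ n, ∃ p q : ℕ, p ≠ 0 ∧ q ≠ 0 ∧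
        Nonempty (Matrix (Fin p) (Fin p) (⨂[F] (_ : Fin 7), A (n + 1)) ≃ₐ[F] Matrix (Fin q) (Fin q) (A n))

end BR7
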